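import Pool.Agent.Lib_helper57.MinHomeo.Defs

open Set Metric Topology

namespace Pool.Agent.MinHomeo

/-- CURVE: a closed curve almost filling a ball. -/
theorem curve (X : Type) [NormedAddCommGroup X] [NormedSpace ℝ X] [FiniteDimensional ℝ X] :
    Curve_Stmt X := by
  intro ρ ε hρ hε
  have hcomp : IsCompact (closedBall (0 : X) ρ) := isCompact_closedBall _ _
  obtain ⟨t, htsub, htfin, htcov⟩ := hcomp.finite_cover_balls hε
  have hpc : IsPathConnected (closedBall (0 : X) ρ) :=
    (convex_closedBall (0 : X) ρ).isPathConnected ⟨0, by simp [hρ.le]⟩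
  -- enumerate the net
  obtain ⟨n, p, hp⟩ : ∃ (n : ℕ) (p : Fin n → X), range p = t := by
    obtain ⟨n, e, he⟩ := htfin.fin_embedding
    exact ⟨n, e, he⟩
  let p' : Fin (n + 1) → X := Fin.cons 0 p
  have hp' : ∀ i, p' i ∈ closedBall (0 : X) ρ := by
    intro i
    refine Fin.cases ?_ (fun j => ?_) i
    · simp [p', hρ.le]
    · simp only [p', Fin.cons_succ]
      exact htsub (hp ▸ mem_range_self j)
  obtain ⟨γ, hγ, hγ'⟩ := hpc.exists_path_through_family p' hp'
  have hp0 : p' 0 = 0 := by simp [p']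
  refine ⟨fun s => γ.extend ((1 - Real.cos (2 * Real.pi * s)) / 2), ?_, ?_, ?_, ?_, ?_⟩
  · exact γ.continuous_extend.comp (by fun_prop)
  · intro s
    have : Real.cos (2 * Real.pi * (s + 1)) = Real.cos (2 * Real.pi * s) := by
      rw [mul_add, mul_one, Real.cos_add_two_pi]
    simp only [this]
  · simp [hp0]
  · intro s
    have h1 : γ.extend ((1 - Real.cos (2 * Real.pi * s)) / 2) ∈ range γ := by
      rw [← γ.extend_range]
      exact mem_range_self _
    have h2 := hγ h1
    simpa using h2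
  · intro x hx
    have hx' : x ∈ closedBall (0 : X) ρ := by simpa using hx
    have h1 := htcov hx'
    simp only [mem_iUnion, exists_prop] at h1
    obtain ⟨y, hy, hxy⟩ := h1
    rw [← hp] at hy
    obtain ⟨j, rfl⟩ := hy
    obtain ⟨u, hu⟩ := hγ' j.succ
    have hu' : γ u = p j := by simpa [p'] using hu
    have hu0 : (0 : ℝ) ≤ u := u.2.1
    have hu1 : (u : ℝ) ≤ 1 := u.2.2
    refine ⟨Real.arccos (1 - 2 * u) / (2 * Real.pi), ?_⟩
    have h2 : 2 * Real.pi * (Real.arccos (1 - 2 * u) / (2 * Real.pi)) = Real.arccos (1 - 2 * u) := by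
      field_simp
    have h3 : Real.cos (Real.arccos (1 - 2 * u)) = 1 - 2 * u :=
      Real.cos_arccos (by linarith) (by linarith)
    have h4 : (1 - Real.cos (2 * Real.pi * (Real.arccos (1 - 2 * u) / (2 * Real.pi)))) / 2 = u := by
      rw [h2, h3]; ring
    simp only [h4]
    rw [γ.extend_apply u.2]
    have h5 : (⟨(u : ℝ), u.2⟩ : unitInterval) = u := rfl
    rw [h5, hu', ← dist_eq_norm, dist_comm]
    exact hxy

end Pool.Agent.MinHomeo
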