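import Pool.Agent.Lib_helper57.MinHomeo.Basic

open Set Metric Topology

namespace Pool.Agent.MinHomeo

variable {X M : Type} [NormedAddCommGroup X] [NormedSpace ℝ X] [MetricSpace M]

/-- Uniform length of the arcs of the circles through a compact set which lie in an open set. -/
theorem hit_arc (C : RotChart X M) (V : Set M) (hV : IsOpen V) (S : Set M) (hS : IsCompact S)
    (h : ∀ m ∈ S, ∃ t, C.R t m ∈ V) :
    ∃ δ, 0 < δ ∧ ∀ m ∈ S, ∃ t, ∀ s, |s - t| < δ → C.R s m ∈ V := by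
  refine hS.induction_on (p := fun S => 
    ∃ δ, 0 < δ ∧ ∀ m ∈ S, ∃ t, ∀ s, |s - t| < δ → C.R s m ∈ V) ?_ ?_ ?_ ?_
  · exact ⟨1, one_pos, fun m hm => absurd hm (notMem_empty m)⟩
  · rintro S T hST ⟨δ, hδ, hT⟩
    exact ⟨δ, hδ, fun m hm => hT m (hST hm)⟩
  · rintro S T ⟨δ, hδ, hS⟩ ⟨δ', hδ', hT⟩
    refine ⟨min δ δ', lt_min hδ hδ', ?_⟩
    rintro m (hm | hm)
    · obtain ⟨t, ht⟩ := hS m hm
      exact ⟨t, fun s hs => ht s (hs.trans_le (min_le_left _ _))⟩
    · obtain ⟨t, ht⟩ := hT m hm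
      exact ⟨t, fun s hs => ht s (hs.trans_le (min_le_right _ _))⟩
  · intro m hm
    obtain ⟨t, ht⟩ := h m hm
    have h1 : (fun p : ℝ × M => C.R p.1 p.2) ⁻¹' V ∈ 𝓝 (t, m) :=
      (hV.preimage C.R_cont).mem_nhds ht
    rw [nhds_prod_eq, Filter.mem_prod_iff] at h1
    obtain ⟨A, hA, B, hB, hAB⟩ := h1
    obtain ⟨δ, hδ, hδA⟩ := Metric.mem_nhds_iff.1 hA
    refine ⟨B, mem_nhdsWithin_of_mem_nhds hB, δ, hδ, fun m' hm' => ⟨t, fun s hs => ?_⟩⟩
    have h2 : s ∈ A := hδA (by rw [mem_ball, Real.dist_eq]; exact hs)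
    exact hAB (mk_mem_prod h2 hm')

/-- The piece of `M` over the unit ball of the base, moved by `u`. -/
def hitPiece (C : RotChart X M) (u : M ≃ₜ M) : Set M :=
  u '' (C.Φ '' (closedBall (0 : X) 1 ×ˢ (univ : Set ℝ)))

theorem hitPiece_eq (C : RotChart X M) (u : M ≃ₜ M) :
    hitPiece C u = u '' (C.Φ '' (closedBall (0 : X) 1 ×ˢ Icc (0 : ℝ) 1)) := by
  unfold hitPiece
  congr 1
  apply Subset.antisymm
  · rintro _ ⟨⟨x, θ⟩, ⟨hx, -⟩, rfl⟩
    refine ⟨(x, Int.fract θ), ⟨hx, Int.fract_nonneg θ, (Int.fract_lt_one θ).le⟩, ?_⟩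
    have h1 : θ = Int.fract θ + (⌊θ⌋ : ℝ) := (Int.fract_add_floor θ).symm
    conv_rhs => rw [h1]
    rw [C.Φ_int]
  · exact image_mono (prod_mono_right (subset_univ _))

theorem hitPiece_compact [FiniteDimensional ℝ X] (C : RotChart X M) (u : M ≃ₜ M) :
    IsCompact (hitPiece C u) := by
  rw [hitPiece_eq]
  exact (((isCompact_closedBall _ _).prod isCompact_Icc).image C.Φ_cont).image u.continuous

/-- One step. -/
theorem hit_step [FiniteDimensional ℝ X] (C : RotChart X M) (hAQ : AQ_Stmt C)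
    (hCurve : Curve_Stmt X) (V : Set M) (hV : IsOpen V) (hVne : V.Nonempty) (Q : ℕ) (hQ : 1 ≤ Q)
    (S : Set M) (hS : IsCompact S) (h : ∀ m ∈ S, ∃ t, C.R t m ∈ V) (u : M ≃ₜ M)
    (hu : ∀ t x, u (C.R t x) = C.R t (u x)) :
    ∃ A : M ≃ₜ M, (∀ (j : ℤ) (m : M), A (C.R ((j : ℝ) / Q) m) = C.R ((j : ℝ) / Q) (A m)) ∧
      ∀ m ∈ S ∪ hitPiece C u, ∃ t, A (C.R t m) ∈ V := by
  obtain ⟨δ, hδ, harc⟩ := hit_arc C V hV S hS h
  -- a point of `V` in the moved chart
  have hVu : IsOpen (u ⁻¹' V) := hV.preimage u.continuous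
  have hVune : (u ⁻¹' V).Nonempty := by
    obtain ⟨y, hy⟩ := hVne
    exact ⟨u.symm y, by simpa using hy⟩
  obtain ⟨_, hy0, ⟨⟨x₀, θ₀⟩, rfl⟩⟩ := C.dense.inter_open_nonempty _ hVu hVune
  have hnb : C.Φ ⁻¹' (u ⁻¹' V) ∈ 𝓝 (x₀, θ₀) := (hVu.preimage C.Φ_cont).mem_nhds hy0
  obtain ⟨δ', hδ', hball⟩ := Metric.mem_nhds_iff.1 hnb
  obtain ⟨v, hvc, hvp, hv0, hvρ, hvε⟩ := hCurve (1 + ‖x₀‖) δ' (by positivity) hδ'
  -- choice of the multiple of `Q`
  obtain ⟨n, hn⟩ := exists_nat_gt (max (1 / δ) (1 / δ'))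
  have hn0 : (0 : ℝ) < n := lt_trans (by positivity) ((le_max_left _ _).trans_lt hn)
  have hn1 : 1 ≤ n := by exact_mod_cast hn0
  set q : ℕ := Q * n with hq
  have hq1 : 1 ≤ q := Nat.one_le_iff_ne_zero.2 (by positivity)
  have hqn : (n : ℝ) ≤ q := by
    rw [hq]
    exact_mod_cast Nat.le_mul_of_pos_left n hQ
  have hqpos : (0 : ℝ) < q := hn0.trans_le hqn
  have hqδ : 1 / (q : ℝ) < δ := by
    rw [one_div_lt hqpos hδ]
    exact ((le_max_left _ _).trans_lt hn).trans_le hqn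
  have hqδ' : 1 / (q : ℝ) < δ' := by
    rw [one_div_lt hqpos hδ']
    exact ((le_max_right _ _).trans_lt hn).trans_le hqn
  -- rounding
  have hround : ∀ a b : ℝ, |((round (q * b - a) : ℝ) + a) / q - b| < 1 / q := by
    intro a b
    have h1 : |(q * b - a) - round (q * b - a)| ≤ 1 / 2 := abs_sub_round _
    have h2 : ((round (q * b - a) : ℝ) + a) / q - b =
        -((q * b - a) - round (q * b - a)) / q := by
      field_simp
      ring
    rw [h2, abs_div, abs_neg, abs_of_pos hqpos]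
    apply div_lt_div_of_pos_right _ hqpos
    linarith
  obtain ⟨A, hA1, hA2, hA3, hA4⟩ := hAQ v (1 + ‖x₀‖) 1 (by positivity) one_pos hvc hvp hv0 hvρ q hq1
  refine ⟨(u.symm.trans A).trans u, ?_, ?_⟩
  · intro j m
    have husymm : u.symm (C.R ((j : ℝ) / Q) m) = C.R ((j : ℝ) / Q) (u.symm m) := by
      rw [Homeomorph.symm_apply_eq, hu, Homeomorph.apply_symm_apply]
    simp only [Homeomorph.trans_apply]
    rw [husymm, hA4, hu]
    refine ⟨n * j, ?_⟩
    rw [hq]
    have : (Q : ℝ) ≠ 0 := by positivity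
    push_cast
    field_simp
  · have husymm : ∀ t m, u.symm (C.R t m) = C.R t (u.symm m) := by
      intro t m
      rw [Homeomorph.symm_apply_eq, hu, Homeomorph.apply_symm_apply]
    rintro m (hm | hm)
    · obtain ⟨t, ht⟩ := harc m hm
      by_cases hr : u.symm m ∈ range C.Φ
      · obtain ⟨⟨x, θ⟩, hx⟩ := hr
        set s : ℝ := ((round (q * t - (-(q * θ))) : ℝ) + (-(q * θ))) / q with hs
        have hst : |s - t| < δ := (hround _ _).trans hqδ
        refine ⟨s, ?_⟩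
        simp only [Homeomorph.trans_apply]
        rw [husymm, ← hx, C.R_Φ, hA2, ← C.R_Φ, hx, hu, Homeomorph.apply_symm_apply]
        · exact ht s hst
        · refine ⟨round (q * t - (-(q * θ))), ?_⟩
          rw [hs]
          field_simp
          ring
      · have hr' : C.R t (u.symm m) ∉ range C.Φ := by
          rintro ⟨⟨x, θ⟩, hx⟩
          apply hr
          refine ⟨(x, θ + (-t)), ?_⟩
          rw [← C.R_Φ, hx, C.R_neg_apply]
        refine ⟨t, ?_⟩
        simp only [Homeomorph.trans_apply]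
        rw [husymm, hA3 _ hr', hu, Homeomorph.apply_symm_apply]
        exact ht t (by simpa using hδ)
    · obtain ⟨_, ⟨⟨x, θ⟩, ⟨hx, -⟩, rfl⟩, rfl⟩ := hm
      have hx1 : ‖x‖ ≤ 1 := by simpa using hx
      obtain ⟨s, hs⟩ := hvε (x₀ - x) (by
        calc ‖x₀ - x‖ ≤ ‖x₀‖ + ‖x‖ := norm_sub_le _ _
          _ ≤ 1 + ‖x₀‖ := by linarith)
      set τ : ℝ := ((round (q * θ₀ - s) : ℝ) + s) / q with hτ
      have hτθ : |τ - θ₀| < δ' := (hround _ _).trans hqδ'
      refine ⟨τ - θ, ?_⟩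
      simp only [Homeomorph.trans_apply]
      rw [husymm, Homeomorph.symm_apply_apply, C.R_Φ, hA1 _ _ hx1]
      have h1 : θ + (τ - θ) = τ := by ring
      rw [h1]
      have hvper : ∀ k : ℤ, ∀ r : ℝ, v (k + r) = v r := by
        have hper : Function.Periodic v 1 := hvp
        intro k r
        have := hper.int_mul k r
        rw [mul_one] at this
        rw [add_comm]
        exact this
      have h2 : v (q * τ) = v s := by
        have h3 : (q : ℝ) * τ = (round (q * θ₀ - s) : ℤ) + s := by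
          rw [hτ]
          field_simp
        rw [h3, hvper]
      rw [h2]
      have h4 : (x + v s, τ) ∈ ball (x₀, θ₀) δ' := by
        rw [mem_ball, Prod.dist_eq]
        apply max_lt
        · rw [dist_eq_norm]
          have h5 : x + v s - x₀ = v s - (x₀ - x) := by abel
          rw [h5]
          exact hs
        · rw [Real.dist_eq]
          exact hτθ
      exact hball h4

/-- HIT: a homeomorphism commuting with `R (1/Q)` which makes every circle visit `V`. -/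
theorem hit [FiniteDimensional ℝ X] [CompactSpace M] (C : RotChart X M) (h : AQ_Stmt C)
    (h' : Curve_Stmt X) : Hit_Stmt C := by
  intro V hV hVne Q hQ
  choose u hu1 hu2 using C.trans
  -- the finite cover
  have hcov : ∀ p : M, (u p) '' (C.Φ '' (ball (0 : X) 1 ×ˢ (univ : Set ℝ))) ∈ 𝓝 p := by
    intro p
    have h1 : IsOpen ((u p) '' (C.Φ '' (ball (0 : X) 1 ×ˢ (univ : Set ℝ)))) :=
      (u p).isOpenMap _ (C.Φ_open _ (isOpen_ball.prod isOpen_univ))
    refine h1.mem_nhds ⟨C.Φ (0, 0), ⟨(0, 0), ⟨by simp, mem_univ _⟩, rfl⟩, hu2 p⟩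
  obtain ⟨T, hT⟩ := CompactSpace.elim_nhds_subcover _ hcov
  have key : ∀ s : Finset M, ∃ G : M ≃ₜ M,
      (∀ (j : ℤ) (m : M), G (C.R ((j : ℝ) / Q) m) = C.R ((j : ℝ) / Q) (G m)) ∧
      ∀ p ∈ s, ∀ m ∈ hitPiece C (u p), ∃ t, G (C.R t m) ∈ V := by
    intro s
    classical
    induction s using Finset.induction_on with
    | empty => exact ⟨Homeomorph.refl M, fun j m => rfl, fun p hp => absurd hp (Finset.notMem_empty p)⟩
    | insert p s hp ih =>
      obtain ⟨G, hG1, hG2⟩ := ih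
      obtain ⟨A, hA1, hA2⟩ := hit_step C h h' (G ⁻¹' V) (hV.preimage G.continuous) (by
        obtain ⟨y, hy⟩ := hVne
        exact ⟨G.symm y, by simpa using hy⟩) Q hQ (⋃ p ∈ s, hitPiece C (u p))
        (s.isCompact_biUnion fun p _ => hitPiece_compact C (u p)) (by
          intro m hm
          simp only [mem_iUnion, exists_prop] at hm
          obtain ⟨p, hp, hm⟩ := hm
          exact hG2 p hp m hm) (u p) (hu1 p)
      refine ⟨A.trans G, ?_, ?_⟩
      · intro j m
        simp only [Homeomorph.trans_apply]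
        rw [hA1, hG1]
      · intro p' hp' m hm
        have hm' : m ∈ (⋃ p ∈ s, hitPiece C (u p)) ∪ hitPiece C (u p) := by
          rcases Finset.mem_insert.1 hp' with rfl | hp'
          · exact Or.inr hm
          · exact Or.inl (mem_biUnion (show p' ∈ s from hp') hm)
        exact hA2 m hm'
  obtain ⟨G, hG1, hG2⟩ := key T
  refine ⟨G, hG1, fun m => ?_⟩
  have hm : m ∈ ⋃ p ∈ T, (u p) '' (C.Φ '' (ball (0 : X) 1 ×ˢ (univ : Set ℝ))) := by
    rw [hT]; exact mem_univ m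
  simp only [mem_iUnion, exists_prop] at hm
  obtain ⟨p, hp, hm⟩ := hm
  exact hG2 p hp m (image_mono (image_mono (prod_mono_left ball_subset_closedBall)) hm)

end Pool.Agent.MinHomeo
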